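import Mathlib
import Pool.Agent.U707.LI.StmP

/-!
# Project LI package ALG: a character of the algebra of a pseudorepresentation
-/

set_option autoImplicit false

namespace Pool.Agent.U141.LIP

open Pool.Agent.U707.LI

open Module

section abs

variable {R k A V : Type} [Ring R] [Field k] [Algebra k R] [CommRing A] [Algebra k A]
  [AddCommGroup V] [Module k V]

/-- the linear extension of a pseudorepresentation -/
structure PS (T : R →ₗ[k] A) : Prop where
  one : T 1 = 2
  comm : ∀ x y, T (x * y) = T (y * x)
  rel : ∀ x y z, T x * T y * T z + T (x * y * z) + T (x * z * y) =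
    T (x * y) * T z + T (x * z) * T y + T (y * z) * T x

theorem PS.sq {T : R →ₗ[k] A} (h : PS T) (x y : R) :
    T x * T x * T y + 2 * T (x * x * y) = T (x * x) * T y + 2 * (T x * T (x * y)) := by
  have h1 := h.rel x x y
  have h2 : T (x * y * x) = T (x * x * y) := by
    rw [h.comm (x * y) x, mul_assoc]
  rw [h2] at h1
  linear_combination h1

/-- powers of an element with values in an ideal -/
theorem PS.pow {T : R →ₗ[k] A} (h : PS T) (h2 : IsUnit (2 : A)) (N : Ideal A) (e : R)
    (he : ∀ y, T (e * y) ∈ N) : ∀ (j : ℕ) (y : R), T (e ^ (2 * j) * y) ∈ N ^ j := by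
  have heN : T e ∈ N := by have := he 1; rwa [mul_one] at this
  intro j
  induction j with
  | zero => intro y; rw [pow_zero, Ideal.one_eq_top]; trivial
  | succ j ih =>
    intro y
    have h3 := h.sq e (e ^ (2 * j) * y)
    have e1 : e * e * (e ^ (2 * j) * y) = e ^ (2 * (j + 1)) * y := by
      rw [← mul_assoc]
      congr 1
      rw [show 2 * (j + 1) = 2 + 2 * j by ring, pow_add, pow_two]
    have e2 : e * (e ^ (2 * j) * y) = e ^ (2 * j) * (e * y) := by
      rw [← mul_assoc, ← mul_assoc, ← pow_succ', ← pow_succ]
    rw [e1, e2] at h3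
    have m1 : T e * T e * T (e ^ (2 * j) * y) ∈ N ^ (j + 1) := by
      rw [pow_succ', mul_assoc]
      exact Ideal.mul_mem_mul heN (Ideal.mul_mem_left _ _ (ih y))
    have m2 : T (e * e) * T (e ^ (2 * j) * y) ∈ N ^ (j + 1) := by
      rw [pow_succ']
      exact Ideal.mul_mem_mul (he e) (ih y)
    have m3 : 2 * (T e * T (e ^ (2 * j) * (e * y))) ∈ N ^ (j + 1) := by
      rw [pow_succ']
      exact Ideal.mul_mem_left _ _ (Ideal.mul_mem_mul heN (ih _))
    have m4 : 2 * T (e ^ (2 * (j + 1)) * y) ∈ N ^ (j + 1) := by
      have e3 : 2 * T (e ^ (2 * (j + 1)) * y) = T (e * e) * T (e ^ (2 * j) * y) +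
          2 * (T e * T (e ^ (2 * j) * (e * y))) - T e * T e * T (e ^ (2 * j) * y) := by
        linear_combination h3
      rw [e3]
      exact Ideal.sub_mem _ (Ideal.add_mem _ m2 m3) m1
    obtain ⟨u, hu⟩ := h2
    have e4 : T (e ^ (2 * (j + 1)) * y) = (u⁻¹ : Aˣ) * (2 * T (e ^ (2 * (j + 1)) * y)) := by
      rw [← mul_assoc, ← hu, Units.inv_mul, one_mul]
    rw [e4]
    exact Ideal.mul_mem_left _ _ m4

theorem CH (hV : finrank k V = 2) (X : Module.End k V) :
    ∃ c : k, X * X = (LinearMap.trace k V X) • X + c • (1 : Module.End k V) := by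
  have : FiniteDimensional k V := FiniteDimensional.of_finrank_pos (by rw [hV]; norm_num)
  let b := Module.finBasisOfFinrankEq k V hV
  set M := LinearMap.toMatrixAlgEquiv b X with hM
  have htr : LinearMap.trace k V X = M.trace := by
    rw [LinearMap.trace_eq_matrix_trace k b X]
    rfl
  refine ⟨-M.det, ?_⟩
  apply (LinearMap.toMatrixAlgEquiv b).injective
  rw [map_mul, map_add, map_smul, map_smul, map_one, ← hM, htr]
  ext i j
  fin_cases i <;> fin_cases j <;>
    simp [Matrix.mul_apply, Fin.sum_univ_two, Matrix.trace_fin_two, Matrix.det_fin_two] <;> ring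

theorem nonscalar (hV : finrank k V = 2) :
    ∃ Y : Module.End k V, ∀ c : k, Y ≠ c • (1 : Module.End k V) := by
  have : FiniteDimensional k V := FiniteDimensional.of_finrank_pos (by rw [hV]; norm_num)
  let b := Module.finBasisOfFinrankEq k V hV
  refine ⟨(b.coord 0).smulRight (b 1), fun c hc => ?_⟩
  have h1 := congrArg (fun F : Module.End k V => F (b 1)) hc
  have h0 := congrArg (fun F : Module.End k V => F (b 0)) hc
  simp only [LinearMap.smulRight_apply, Basis.coord_apply, Basis.repr_self,
    LinearMap.smul_apply, Module.End.one_apply] at h1 h0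
  rw [Finsupp.single_eq_same, one_smul] at h0
  have h3 : (1 : Fin 2) ≠ 0 := by decide
  rw [Finsupp.single_eq_of_ne (by decide), zero_smul] at h1
  have hb1 := b.ne_zero 1
  have hc0 : c = 0 := by
    rcases smul_eq_zero.1 h1.symm with h | h
    · exact h
    · exact absurd h hb1
  rw [hc0, zero_smul] at h0
  exact hb1 h0

/-- a nonzero two-sided ideal contains an element over the identity -/
theorem exists_one [FiniteDimensional k V] (ρ : R →ₐ[k] Module.End k V)
    (hρ : Function.Surjective ρ) (J : R → Prop) (hadd : ∀ x y, J x → J y → J (x + y)) (h0 : J 0)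
    (hmul : ∀ a x c, J x → J (a * x * c)) (x : R) (hx : J x) (hρx : ρ x ≠ 0) :
    ∃ e, J e ∧ ρ e = 1 := by
  obtain ⟨v, hv⟩ : ∃ v, ρ x v ≠ 0 := by
    by_contra h
    push Not at h
    exact hρx (LinearMap.ext h)
  obtain ⟨f, hf⟩ : ∃ f : Module.Dual k V, f (ρ x v) ≠ 0 := by
    by_contra h
    push Not at h
    exact hv ((Module.forall_dual_apply_eq_zero_iff k _).1 h)
  let b := Module.finBasis k V
  choose a ha using fun i => hρ ((f (ρ x v))⁻¹ • f.smulRight (b i))
  choose c hc using fun i => hρ ((b.coord i).smulRight v)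
  refine ⟨∑ i, a i * x * c i, ?_, ?_⟩
  · have : ∀ s : Finset (Fin (finrank k V)), J (∑ i ∈ s, a i * x * c i) := by
      classical
      intro s
      induction s using Finset.induction_on with
      | empty => rw [Finset.sum_empty]; exact h0
      | insert i s hi ih =>
        rw [Finset.sum_insert hi]
        exact hadd _ _ (hmul _ _ _ hx) ih
    exact this _
  · rw [map_sum]
    ext w
    rw [LinearMap.sum_apply, Module.End.one_apply]
    conv_rhs => rw [← b.sum_repr w]
    refine Finset.sum_congr rfl fun i _ => ?_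
    rw [map_mul, map_mul, ha, hc, Module.End.mul_apply, Module.End.mul_apply,
      LinearMap.smulRight_apply, LinearMap.map_smul, LinearMap.smul_apply,
      LinearMap.smulRight_apply, LinearMap.map_smul, Basis.coord_apply, smul_smul, smul_eq_mul]
    congr 1
    field_simp

theorem absMain [IsAlgClosed k] [FiniteDimensional k A] (T : R →ₗ[k] A)
    (ρ : R →ₐ[k] Module.End k V) (l : A →ₗ[k] k) (h2 : (2 : k) ≠ 0) (hT : PS T)
    (hV : finrank k V = 2) (hρ : Function.Surjective ρ)
    (hl : ∀ x, LinearMap.trace k V (ρ x) = l (T x)) :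
    ∃ φ : A →ₐ[k] k, ∀ x, φ (T x) = LinearMap.trace k V (ρ x) := by
  classical
  have hfV : FiniteDimensional k V := FiniteDimensional.of_finrank_pos (by rw [hV]; norm_num)
  have hart : IsArtinianRing A := IsArtinianRing.of_finite k A
  have hu2 : IsUnit (2 : A) := by
    have h3 : (2 : A) = algebraMap k A 2 := by rw [map_ofNat]
    rw [h3]
    exact (IsUnit.mk0 _ h2).map _
  -- step 3
  obtain ⟨m, hm⟩ : ∃ m : MaximalSpectrum A, ∀ x, (∀ y, T (x * y) ∈ m.asIdeal) → ρ x = 0 := by
    by_contra hcon
    push Not at hcon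
    have h4 : ∀ m : MaximalSpectrum A, ∃ e, (∀ y, T (e * y) ∈ m.asIdeal) ∧ ρ e = 1 := by
      intro m
      obtain ⟨x, hx, hρx⟩ := hcon m
      refine exists_one ρ hρ (fun e => ∀ y, T (e * y) ∈ m.asIdeal) ?_ ?_ ?_ x hx hρx
      · intro x y hx hy z
        rw [add_mul, map_add]
        exact Ideal.add_mem _ (hx z) (hy z)
      · intro y
        rw [zero_mul, map_zero]
        exact Ideal.zero_mem _
      · intro a x c hx y
        have e1 : T (a * x * c * y) = T (x * (c * y * a)) := by
          rw [show a * x * c * y = a * (x * (c * y)) by simp only [mul_assoc], hT.comm]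
          simp only [mul_assoc]
        rw [e1]
        exact hx _
    choose e he using h4
    have h5 : ∀ s : Finset (MaximalSpectrum A), ∃ e, (∀ m ∈ s, ∀ y, T (e * y) ∈ m.asIdeal) ∧
        ρ e = 1 := by
      intro s
      induction s using Finset.induction_on with
      | empty => exact ⟨1, fun m hm => absurd hm (Finset.notMem_empty m), map_one ρ⟩
      | insert m s _ ih =>
        obtain ⟨e', h6, h7⟩ := ih
        refine ⟨e m * e', ?_, by rw [map_mul, (he m).2, h7, mul_one]⟩
        intro m' hm' y
        rcases Finset.mem_insert.1 hm' with rfl | hm'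
        · rw [mul_assoc]
          exact (he m').1 _
        · have e1 : T (e m * e' * y) = T (e' * (y * e m)) := by
            rw [mul_assoc, hT.comm, mul_assoc]
          rw [e1]
          exact h6 m' hm' _
    have hfin : Fintype (MaximalSpectrum A) := Fintype.ofFinite _
    obtain ⟨e, h6, h7⟩ := h5 Finset.univ
    have h8 : ∀ y, T (e * y) ∈ nilradical A := by
      intro y
      rw [nilradical_eq_sInf, Submodule.mem_sInf]
      intro p hp
      have hp' : Ideal.IsPrime p := hp
      have hpm : Ideal.IsMaximal p := IsArtinianRing.isMaximal_of_isPrime p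
      exact h6 ⟨p, hpm⟩ (Finset.mem_univ _) y
    obtain ⟨r, hr⟩ := IsArtinianRing.isNilpotent_nilradical (R := A)
    have h9 := hT.pow hu2 _ e h8 r 1
    rw [hr, mul_one] at h9
    have h10 : T (e ^ (2 * r)) = 0 := h9
    have h11 := hl (e ^ (2 * r))
    rw [h10, map_zero, map_pow, h7, one_pow, LinearMap.trace_one, hV] at h11
    exact h2 (by exact_mod_cast h11)
  -- step 4
  have hmm := m.isMaximal
  let _ : Field (A ⧸ m.asIdeal) := Ideal.Quotient.field m.asIdeal
  have hbij : Function.Bijective (algebraMap k (A ⧸ m.asIdeal)) :=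
    IsAlgClosed.algebraMap_bijective_of_isIntegral
  let ψ : k ≃ₐ[k] (A ⧸ m.asIdeal) := AlgEquiv.ofBijective (Algebra.ofId k (A ⧸ m.asIdeal)) hbij
  let φ : A →ₐ[k] k := (ψ.symm : (A ⧸ m.asIdeal) →ₐ[k] k).comp (Ideal.Quotient.mkₐ k m.asIdeal)
  have hφ : ∀ a, φ a = 0 → a ∈ m.asIdeal := by
    intro a ha
    have h3 : ψ.symm (Ideal.Quotient.mk m.asIdeal a) = 0 := ha
    rw [map_eq_zero_iff _ ψ.symm.injective] at h3
    exact Ideal.Quotient.eq_zero_iff_mem.1 h3
  refine ⟨φ, ?_⟩
  -- the functional
  have key : ∀ x, φ (T x) ≠ LinearMap.trace k V (ρ x) → ∃ c : k, ρ x = c • (1 : Module.End k V) := by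
    intro x hx
    have hz : ρ ((2 : k) • (x * x) - (2 * φ (T x)) • x +
        (φ (T x) * φ (T x) - φ (T (x * x))) • (1 : R)) = 0 := by
      apply hm
      intro y
      apply hφ
      have h3 := congrArg φ (hT.sq x y)
      simp only [map_add, map_mul, map_ofNat] at h3
      rw [add_mul, sub_mul, smul_mul_assoc, smul_mul_assoc, smul_mul_assoc, one_mul, map_add,
        map_sub, map_smul, map_smul, map_smul, map_add, map_sub, map_smul, map_smul, map_smul,
        smul_eq_mul, smul_eq_mul, smul_eq_mul]
      linear_combination h3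
    rw [map_add, map_sub, map_smul, map_smul, map_smul, map_mul, map_one] at hz
    obtain ⟨c, hc⟩ := CH hV (ρ x)
    rw [hc] at hz
    have hne : 2 * (LinearMap.trace k V (ρ x) - φ (T x)) ≠ 0 :=
      mul_ne_zero h2 (sub_ne_zero.2 (Ne.symm hx))
    refine ⟨-(2 * (LinearMap.trace k V (ρ x) - φ (T x)))⁻¹ *
      (2 * c + (φ (T x) * φ (T x) - φ (T (x * x)))), ?_⟩
    have h4 : (2 * (LinearMap.trace k V (ρ x) - φ (T x))) • ρ x =
        (-(2 * c + (φ (T x) * φ (T x) - φ (T (x * x))))) • (1 : Module.End k V) := by
      rw [← sub_eq_zero, ← hz]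
      module
    have h5 := congrArg (fun F => (2 * (LinearMap.trace k V (ρ x) - φ (T x)))⁻¹ • F) h4
    simp only [smul_smul] at h5
    rw [inv_mul_cancel₀ hne, one_smul] at h5
    refine h5.trans ?_
    congr 1
    ring
  intro x
  by_contra hx
  obtain ⟨c, hc⟩ := key x hx
  obtain ⟨Y, hY⟩ := nonscalar (k := k) (V := V) hV
  obtain ⟨y, rfl⟩ := hρ Y
  have hy : φ (T y) = LinearMap.trace k V (ρ y) := by
    by_contra h
    obtain ⟨d, hd⟩ := key y h
    exact hY d hd
  have hxy : φ (T (x + y)) ≠ LinearMap.trace k V (ρ (x + y)) := by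
    rw [map_add, map_add, map_add, map_add, hy]
    intro h
    exact hx (add_right_cancel h)
  obtain ⟨d, hd⟩ := key _ hxy
  apply hY (d - c)
  rw [sub_smul, ← hd, ← hc, map_add]
  abel

end abs

section grp

variable {G k A V : Type} [Group G] [Field k] [CommRing A] [Algebra k A]

/-- the linear extension of `T` to the group algebra -/
noncomputable def ext (T : G → A) : MonoidAlgebra k G →ₗ[k] A where
  toFun x := Finsupp.linearCombination k T x.coeff
  map_add' x y := by rw [MonoidAlgebra.coeff_add, map_add]
  map_smul' c x := by rw [MonoidAlgebra.coeff_smul, map_smul]; rfl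

theorem ext_of (T : G → A) (g : G) : ext (k := k) T (MonoidAlgebra.of k G g) = T g := by
  have h : Finsupp.linearCombination k T (Finsupp.single g (1 : k)) = (1 : k) • T g :=
    Finsupp.linearCombination_single k (1 : k) g
  rw [one_smul] at h
  exact h

theorem ext_ps {T : G → A} (hT : IsPseudo T) : PS (ext (k := k) T) where
  one := by
    rw [← map_one (MonoidAlgebra.of k G), ext_of]
    exact hT.one
  comm x y := by
    induction x using MonoidAlgebra.induction_on with
    | of g =>
      induction y using MonoidAlgebra.induction_on with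
      | of h => rw [← map_mul, ← map_mul, ext_of, ext_of]; exact hT.comm g h
      | add a b ha hb => rw [mul_add, add_mul, map_add, map_add, ha, hb]
      | smul c a ha => rw [mul_smul_comm, smul_mul_assoc, map_smul, map_smul, ha]
    | add a b ha hb => rw [mul_add, add_mul, map_add, map_add, ha, hb]
    | smul c a ha => rw [mul_smul_comm, smul_mul_assoc, map_smul, map_smul, ha]
  rel x y z := by
    induction x using MonoidAlgebra.induction_on with
    | of g =>
      induction y using MonoidAlgebra.induction_on with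
      | of h =>
        induction z using MonoidAlgebra.induction_on with
        | of l =>
          simp only [← map_mul, ext_of]
          exact hT.rel g h l
        | add a b ha hb =>
          simp only [mul_add, add_mul, map_add]
          linear_combination ha + hb
        | smul c a ha =>
          simp only [mul_smul_comm, smul_mul_assoc, map_smul]
          rw [← smul_add, ← smul_add, ha, ← smul_add, ← smul_add]
      | add a b ha hb =>
        simp only [mul_add, add_mul, map_add]
        linear_combination ha + hb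
      | smul c a ha =>
        simp only [mul_smul_comm, smul_mul_assoc, map_smul]
        rw [← smul_add, ← smul_add, ha, ← smul_add, ← smul_add]
    | add a b ha hb =>
      simp only [mul_add, add_mul, map_add]
      linear_combination ha + hb
    | smul c a ha =>
      simp only [mul_smul_comm, smul_mul_assoc, map_smul]
      rw [← smul_add, ← smul_add, ha, ← smul_add, ← smul_add]

end grp

theorem t_ALG : S_ALG := by
  intro G k A V _ _ _ _ _ _ _ _ T ρ l h2 hT hV hspan hl
  have hfV : FiniteDimensional k V := FiniteDimensional.of_finrank_pos (by rw [hV]; norm_num)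
  let P : MonoidAlgebra k G →ₐ[k] Module.End k V := MonoidAlgebra.lift k (Module.End k V) G ρ
  have hP : ∀ g, P (MonoidAlgebra.of k G g) = ρ g := fun g => MonoidAlgebra.lift_of ρ g
  have hsurj : Function.Surjective P := by
    have h1 : Submodule.span k (Set.range ρ) ≤ LinearMap.range P.toLinearMap := by
      rw [Submodule.span_le]
      rintro _ ⟨g, rfl⟩
      exact ⟨MonoidAlgebra.of k G g, hP g⟩
    rw [hspan] at h1
    intro X
    obtain ⟨x, hx⟩ := h1 (Submodule.mem_top (x := X))
    exact ⟨x, hx⟩
  have hl' : ∀ x, LinearMap.trace k V (P x) = l (ext (k := k) T x) := by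
    intro x
    induction x using MonoidAlgebra.induction_on with
    | of g => rw [hP, ext_of]; exact hl g
    | add a b ha hb => rw [map_add, map_add, map_add, map_add, ha, hb]
    | smul c a ha => rw [map_smul, map_smul, map_smul, map_smul, ha]
  obtain ⟨φ, hφ⟩ := absMain (ext (k := k) T) P l h2 (ext_ps hT) hV hsurj hl'
  refine ⟨φ, fun g => ?_⟩
  have h3 := hφ (MonoidAlgebra.of k G g)
  rw [ext_of, hP] at h3
  exact h3

end Pool.Agent.U141.LIP
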